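import Pool.Agent.Helper46.NU.Names

open MeasureTheory Filter Topology Set

noncomputable section

namespace NU.PkNU0

open Pool.Agent.Helper97.Ku

variable {X : Type} [MeasurableSpace X]

lemma meas_iff {f : X → Bool} (hf : Measurable f) (p : Prop) :
    MeasurableSet {z | (p ↔ f z = true)} := by
  have h : MeasurableSet {z | f z = true} := hf (measurableSet_singleton true)
  by_cases hp : p
  · simpa [hp] using h
  · have h2 : {z | (p ↔ f z = true)} = {z | f z = true}ᶜ := by
      ext z; simp [hp]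
    rw [h2]; exact h.compl

lemma meas_eq {f g : X → Bool} (hf : Measurable f) (hg : Measurable g) :
    MeasurableSet {z | f z = g z} := by
  have h : {z | f z = g z} = ({z | f z = true} ∩ {z | g z = true}) ∪
      ({z | f z = true}ᶜ ∩ {z | g z = true}ᶜ) := by
    ext z
    simp only [mem_ofPred_eq, mem_union, mem_inter_iff, mem_compl_iff]
    cases f z <;> cases g z <;> simp
  have h1 : MeasurableSet {z | f z = true} := hf (measurableSet_singleton true)
  have h2 : MeasurableSet {z | g z = true} := hg (measurableSet_singleton true)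
  rw [h]
  exact (h1.inter h2).union (h1.compl.inter h2.compl)

lemma meas_NF {c : X → ℕ → Bool} (hc : Measurable c) (k : ℕ) (t : Finset ℕ) :
    MeasurableSet {z | t ∈ NF k (c z)} := by
  have hm : ∀ m, Measurable fun z => c z m := fun m => (measurable_pi_apply m).comp hc
  have h : {z | t ∈ NF k (c z)} = ⋃ n : ℕ, ({z : X | LastN t n} ∩ ⋃ j : ℕ,
      ({z : X | k + 1 ≤ j ∧ 2 ^ (j + 1) ≤ n} ∩ ⋂ m : ℕ, ⋂ _ : m ∈ blk j,
        {z | (m ∈ t ↔ c z m = true)})) := by
    ext z
    simp only [NF, mem_ofPred_eq, mem_iUnion, mem_inter_iff, mem_iInter]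
    constructor
    · rintro ⟨n, hn, j, h1, h2, h3⟩; exact ⟨n, hn, j, ⟨h1, h2⟩, h3⟩
    · rintro ⟨n, hn, j, ⟨h1, h2⟩, h3⟩; exact ⟨n, hn, j, h1, h2, h3⟩
  rw [h]
  exact MeasurableSet.iUnion fun n => (MeasurableSet.const _).inter
    (MeasurableSet.iUnion fun j => (MeasurableSet.const _).inter
      (MeasurableSet.iInter fun m => MeasurableSet.iInter fun _ => meas_iff (hm m) _))

lemma meas_Cyl {w : X → ℕ → Bool} (hw : Measurable w) (t : Finset ℕ) :
    MeasurableSet {z | Cyl t (w z)} := by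
  have hm : ∀ m, Measurable fun z => w z m := fun m => (measurable_pi_apply m).comp hw
  have h : {z | Cyl t (w z)} = ⋃ n : ℕ, ({z : X | LastN t n} ∩ ⋂ m : ℕ, ⋂ _ : m < n,
      {z | (m ∈ t ↔ w z m = true)}) := by
    ext z
    simp only [Cyl, mem_ofPred_eq, mem_iUnion, mem_inter_iff, mem_iInter]
    constructor
    · rintro ⟨n, hn, h1⟩; exact ⟨n, hn, fun m hm' => (h1 m hm').symm⟩
    · rintro ⟨n, hn, h1⟩; exact ⟨n, hn, fun m hm' => (h1 m hm').symm⟩
  rw [h]
  exact MeasurableSet.iUnion fun n => (MeasurableSet.const _).inter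
    (MeasurableSet.iInter fun m => MeasurableSet.iInter fun _ => meas_iff (hm m) _)

lemma meas_Open {w : X → ℕ → Bool} (hw : Measurable w) {F : X → Set (Finset ℕ)}
    (hF : ∀ t, MeasurableSet {z | t ∈ F z}) : MeasurableSet {z | w z ∈ OpenOf (F z)} := by
  have h : {z | w z ∈ OpenOf (F z)} = ⋃ t : Finset ℕ, ({z | t ∈ F z} ∩ {z | Cyl t (w z)}) := by
    ext z
    simp only [OpenOf, mem_ofPred_eq, mem_iUnion, mem_inter_iff]
  rw [h]
  exact MeasurableSet.iUnion fun t => (hF t).inter (meas_Cyl hw t)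

lemma meas_Nset {w c : X → ℕ → Bool} (hw : Measurable w) (hc : Measurable c) :
    MeasurableSet {z | w z ∈ Nset (c z)} := by
  have hwm : ∀ m, Measurable fun z => w z m := fun m => (measurable_pi_apply m).comp hw
  have hcm : ∀ m, Measurable fun z => c z m := fun m => (measurable_pi_apply m).comp hc
  have h : {z | w z ∈ Nset (c z)} = ⋂ a : ℕ, ⋃ b : ℕ, ({z : X | a ≤ b} ∩ ⋂ m : ℕ,
      ⋂ _ : m ∈ blk b, {z | w z m = c z m}) := by
    ext z
    simp only [Nset, mem_ofPred_eq, mem_iUnion, mem_inter_iff, mem_iInter, frequently_atTop]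
  rw [h]
  exact MeasurableSet.iInter fun a => MeasurableSet.iUnion fun b =>
    (MeasurableSet.const _).inter
      (MeasurableSet.iInter fun m => MeasurableSet.iInter fun _ => meas_eq (hwm m) (hcm m))

lemma e_mono {S : Sys} {L : Type} [CompleteBooleanAlgebra L] {e : Set (Pt S) → L}
    (hA : AlgI S L e) {K K' : Set (Pt S)} (hK : MeasurableSet K) (hK' : MeasurableSet K')
    (h : K ⊆ K') : e K ≤ e K' := by
  rw [hA.le K K' hK hK', sdiff_eq_empty.2 h]
  refine Eventually.of_forall fun φ => ?_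
  simp [pr]

theorem nu0 (ng : G_NG) (nsn : G_NSN) (nu2 : G_NU2) (ehom : G_EHOM) : G_NU0 := by
  intro S L _ e hA c hc
  obtain ⟨hr, hmem⟩ := nsn S L e hA c hc
  refine nu2 S L e hA (NsN e c) (fun k z => NF k (c z)) hr (fun k t => meas_NF hc k t)
    (fun k z => (ng k (c z)).1) ?_
  intro w hw k
  rw [hmem w hw]
  refine e_mono hA (meas_Nset hw hc) (meas_Open hw fun t => meas_NF hc k t) ?_
  intro z hz
  exact (ng k (c z)).2 hz

end NU.PkNU0
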